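import Mathlib
import Pool.Agent.H.MP_e7abc8_al.Defs
import Pool.Agent.H.MP_e7abc8_al.A

namespace Pool.Agent.Results.MP_e7abc8_al.NotHopf
open Pool.Agent.H.MP_e7abc8_al Pool.Agent.Lib.helper10.RelFree

theorem result : ∃ (S : Set (FreeNonUnitalNonAssocAlgebra (ZMod 2) ℕ)) (B : Type)
    (_ : NonUnitalNonAssocRing B) (_ : Module (ZMod 2) B) (_ : IsScalarTower (ZMod 2) B B)
    (_ : SMulCommClass (ZMod 2) B B), IsRelFree S 1 B ∧
      ∃ ψ : B →ₙₐ[ZMod 2] B, Function.Surjective ψ ∧ ¬ Function.Injective ψ := by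
  refine ⟨{idn}, F1, inferInstance, inferInstance, inferInstance, inferInstance,
    ⟨pr _ _, pr_surj _ _, pr_eq_zero _ _⟩, ?_⟩
  obtain ⟨ψ, hψ⟩ := univ {idn} (Fin 1) (sat {idn} (Fin 1)) (fun _ => x * x)
  obtain ⟨θ, hθ⟩ := univ {idn} (Fin 1) (sat {idn} (Fin 1)) (fun _ => (x * x) * x)
  have h1 : ψ x = x * x := hψ 0
  have h2 : ψ ((x * x) * x) = x := by rw [map_mul, map_mul, h1, law]
  refine ⟨ψ, ?_, fun h => w_ne (h ?_)⟩
  · have : ψ.comp θ = NonUnitalAlgHom.id (ZMod 2) F1 := by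
      apply hom_ext
      intro i
      obtain rfl : i = 0 := Subsingleton.elim _ _
      show ψ (θ _) = x
      rw [hθ, h2]
    intro y
    exact ⟨θ y, DFunLike.congr_fun this y⟩
  · rw [map_sub, map_mul, h2, h1, sub_self, map_zero]

end Pool.Agent.Results.MP_e7abc8_al.NotHopf
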