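import Mathlib
import Pool.Agent.H.MP_e7abc8_al.Defs
import Pool.Agent.H.MP_e7abc8_al.A

namespace Pool.Agent.Results.MP_e7abc8_al.NotResFin
open Pool.Agent.H.MP_e7abc8_al Pool.Agent.Lib.helper10.RelFree

theorem result : ∃ (S : Set (FreeNonUnitalNonAssocAlgebra (ZMod 2) ℕ)) (B : Type)
    (_ : NonUnitalNonAssocRing B) (_ : Module (ZMod 2) B) (_ : IsScalarTower (ZMod 2) B B)
    (_ : SMulCommClass (ZMod 2) B B), IsRelFree S 1 B ∧
      ∃ w : B, w ≠ 0 ∧ ∀ I : TwoSidedIdeal B, Finite I.ringCon.Quotient → w ∈ I := by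
  refine ⟨{idn}, F1, inferInstance, inferInstance, inferInstance, inferInstance,
    ⟨pr _ _, pr_surj _ _, pr_eq_zero _ _⟩, _, w_ne, fun I hI => ?_⟩
  have hl : ∀ y : I.ringCon.Quotient, ((y * y) * (y * y)) * (y * y) = y := by
    intro y
    induction y using Quotient.inductionOn' with
    | h y => exact congrArg (fun z : F1 => (z : I.ringCon.Quotient)) (law y)
  have hinj : Function.Injective (fun y : I.ringCon.Quotient => y * y) := by
    intro a b h
    simp only at h
    rw [← hl a, h, hl]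
  obtain ⟨y, hy⟩ := Finite.injective_iff_surjective.mp hinj (x : I.ringCon.Quotient)
  simp only at hy
  rw [TwoSidedIdeal.mem_iff, ← RingCon.eq]
  simp only [RingCon.coe_sub, RingCon.coe_mul, RingCon.coe_zero]
  rw [← hy, hl, sub_self]

end Pool.Agent.Results.MP_e7abc8_al.NotResFin
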